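import Pool.Agent.H56.SK.Final

/-!
# MP_2dcd32_an: the affine factor of an abelian extension of an irrational rotation is characteristic along every `a(n)`

For every integer sequence `a(n)` such that `a(n) α` is uniformly distributed modulo one (no other hypothesis): if one of the
bounded functions `f_0, ..., f_ℓ` on an abelian extension of the rotation by `α` is orthogonal to all the functions `q` of
modulus one with `q(Ty) = c e(k p(y)) q(y)`, then `(1/N) Σ_{n<N} |∫ f_0 T^(a(n)) f_1 ... T^(ℓ a(n)) f_ℓ dμ| → 0`.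
-/

set_option autoImplicit false

namespace Pool.Agent.Results.MP_2dcd32_an.AffineFactor

open MeasureTheory Filter Topology Finset Pool.Agent.H56.SK

theorem result :
    (∀ (Y : Type) [MeasurableSpace Y] (μ : Measure Y) [IsProbabilityMeasure μ] (T : Equiv.Perm Y) (p : Y → 𝕋) (α' : ℝ),
      AbExt μ T p α' →
      ∀ a : ℕ → ℤ, UD a (α' : 𝕋) → ∀ (ℓ : ℕ) (f : ℕ → Y → ℂ), (∀ j, j ≤ ℓ → Measurable (f j)) →
        (∀ j, j ≤ ℓ → ∃ C : ℝ, ∀ y, ‖f j y‖ ≤ C) → (∃ i, i ≤ ℓ ∧ ∀ q ∈ QF μ T p, ∫ y, f i y * q y ∂μ = 0) →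
        Tendsto (fun N : ℕ => (∑ n ∈ range N,
          ‖∫ y, ∏ j ∈ range (ℓ + 1), f j ((T ^ ((j : ℤ) * a n) : Equiv.Perm Y) y) ∂μ‖) / N) atTop (𝓝 0)) ∧
    (∀ (G : Type) [AddCommGroup G] [TopologicalSpace G] [IsTopologicalAddGroup G] [CompactSpace G] [T2Space G]
      [SecondCountableTopology G] [MeasurableSpace G] [BorelSpace G] (ν : Measure G) [IsProbabilityMeasure ν]
      [ν.IsAddLeftInvariant] (α' : ℝ) (φ : 𝕋 → G), Irrational α' → Measurable φ →
      AbExt ((volume : Measure 𝕋).prod ν) (skew (α' : 𝕋) φ) Prod.fst α') :=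
  ⟨fun _ _ μ _ T p α' hE a ha ℓ f hf hb hi => affine_factor μ T p α' hE a ha ℓ f hf hb hi,
    fun _ _ _ _ _ _ _ _ _ ν _ _ _ _ hα hφ => skew_abExt ν hα hφ⟩

end Pool.Agent.Results.MP_2dcd32_an.AffineFactor
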